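import Pool.Agent.H33.EntMain

/-!
# The Addition Theorem for strongly compactly covered topologically quasihamiltonian groups

Full (affirmative) answer to Q1 of `MP_febddb_al`. The definitions (`traj`, `IsRightHaar`, `Halg`,
`halg`, `IsTQH`, `StronglyCompactlyCovered`, `restr`) are in `Pool.Agent.H33.EntDefs`.
-/

set_option autoImplicit false

open MeasureTheory

namespace Pool.Agent.Results.MP_febddb_al.AdditionTheorem

open Pool.Agent.H33.Ent

universe u

/-- **Addition Theorem.** Let `G` be a (Hausdorff) strongly compactly covered topologically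
quasihamiltonian group, `φ` a continuous endomorphism and `H` a closed normal subgroup with
`φ(H) ≤ H`. Then `h_alg(φ) = h_alg(φ̄) + h_alg(φ↾H)`, whichever right Haar measures `μ`, `ν`, `ρ` on
`G`, `G/H`, `H` are used to compute the entropies. -/
theorem result (G : Type u) [Group G] [TopologicalSpace G] [IsTopologicalGroup G] [T2Space G]
    (hscc : StronglyCompactlyCovered G) (htqh : IsTQH G)
    (φ : G →* G) (hφ : Continuous φ)
    (H : Subgroup G) [H.Normal] (hH : IsClosed (H : Set G)) (hφH : H ≤ H.comap φ)
    (μ : @Measure G (borel G)) (ν : @Measure (G ⧸ H) (borel (G ⧸ H))) (ρ : @Measure H (borel H))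
    (hμ : IsRightHaar μ) (hν : IsRightHaar ν) (hρ : IsRightHaar ρ) :
    halg μ φ = halg ν (QuotientGroup.map H H φ hφH) + halg ρ (restr φ H hφH) := by
  refine addition (IsTQH.permCompact htqh) φ hφ H hH hφH hμ hν hρ ?_
  intro g
  obtain ⟨N, -, h1, h2, h3⟩ := hscc g
  exact ⟨N, h1, h2, h3⟩

end Pool.Agent.Results.MP_febddb_al.AdditionTheorem
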